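import Pool.Agent.H25.WMen

set_option autoImplicit false
open Set Filter Cardinal

namespace Pool.Agent.Results.MP_ed8104_gt.Indep

/-- The dominating number. -/
noncomputable def dd : Cardinal.{0} :=
  sInf {c | ∃ D : Set (ℕ → ℕ), #D = c ∧ ∀ g : ℕ → ℕ, ∃ f ∈ D, ∀ᶠ n in atTop, g n ≤ f n}

/-- `𝒰` is an open cover. -/
def Cov {X : Type} [TopologicalSpace X] (𝒰 : Set (Set X)) : Prop :=
  (∀ U ∈ 𝒰, IsOpen U) ∧ ⋃₀ 𝒰 = Set.univ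

/-- weakly Lindelöf -/
def WL (X : Type) [TopologicalSpace X] : Prop :=
  ∀ 𝒰 : Set (Set X), Cov 𝒰 → ∃ 𝒱 ⊆ 𝒰, 𝒱.Countable ∧ Dense (⋃₀ 𝒱)

/-- weakly Menger -/
def WM (X : Type) [TopologicalSpace X] : Prop :=
  ∀ 𝒰 : ℕ → Set (Set X), (∀ n, Cov (𝒰 n)) → ∃ 𝒱 : ℕ → Set (Set X),
    (∀ n, 𝒱 n ⊆ 𝒰 n ∧ (𝒱 n).Finite) ∧ Dense (⋃ n, ⋃₀ 𝒱 n)

/-- weakly Scheepers in the sense of Sakai -/
def WSS (X : Type) [TopologicalSpace X] : Prop :=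
  ∀ 𝒰 : ℕ → Set (Set X), (∀ n, Cov (𝒰 n)) → ∃ 𝒱 : ℕ → Set (Set X),
    (∀ n, 𝒱 n ⊆ 𝒰 n ∧ (𝒱 n).Finite) ∧ ∀ ℱ : Set (Set X), ℱ.Finite →
      (∀ U ∈ ℱ, IsOpen U ∧ U.Nonempty) → {n | ∀ U ∈ ℱ, (U ∩ ⋃₀ 𝒱 n).Nonempty}.Infinite

/-- weakly Scheepers in the sense of Kočinac -/
def WSK (X : Type) [TopologicalSpace X] : Prop :=
  ∀ 𝒰 : ℕ → Set (Set X), (∀ n, Cov (𝒰 n)) → ∃ (Y : Set X) (𝒱 : ℕ → Set (Set X)), Dense Y ∧
    (∀ n, 𝒱 n ⊆ 𝒰 n ∧ (𝒱 n).Finite) ∧ ∀ F ⊆ Y, F.Finite → {n | F ⊆ ⋃₀ 𝒱 n}.Infinite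

theorem result :
    (∃ (X : Type) (_ : TopologicalSpace X), T2Space X ∧
      TopologicalSpace.IsTopologicalBasis {W : Set X | IsClopen W} ∧ #X = ℵ₁ ∧ WL X ∧ ¬ WM X) ∧
    ((∀ (X : Type) [TopologicalSpace X], WL X → #X < dd → WSK X) ↔ dd = ℵ₁) ∧
    ((∀ (X : Type) [TopologicalSpace X], WL X → #X < dd → WSS X) ↔ dd = ℵ₁) ∧
    ((∀ (X : Type) [TopologicalSpace X], WL X → #X < dd → WM X) ↔ dd = ℵ₁) := by
  have ex : ∃ (X : Type) (_ : TopologicalSpace X), T2Space X ∧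
      TopologicalSpace.IsTopologicalBasis {W : Set X | IsClopen W} ∧ #X = ℵ₁ ∧ WL X ∧ ¬ WM X := by
    obtain ⟨A, hA⟩ : ∃ A : Set (ℕ → Bool), #A = ℵ₁ :=
      le_mk_iff_exists_set.1 (by simpa using aleph_one_le_continuum)
    have hA' : ¬ A.Countable := by
      rw [← le_aleph0_iff_set_countable, hA, not_le]
      exact aleph0_lt_aleph_one
    have : Infinite A := by
      rw [infinite_iff, hA]
      exact aleph0_lt_aleph_one.le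
    refine ⟨H25.WMen.P A, inferInstance, H25.WMen.t2, H25.WMen.basis, ?_,
      fun 𝒰 h => H25.WMen.wl 𝒰 h.1 h.2, fun h => ?_⟩
    · show #(List ℕ × Finset A) = ℵ₁
      simp [hA, mul_eq_right aleph0_lt_aleph_one.le aleph0_lt_aleph_one.le aleph0_ne_zero]
    · obtain ⟨𝒰, h1, h2⟩ := H25.WMen.not_wm hA'
      obtain ⟨𝒱, h3, h4⟩ := h 𝒰 h1
      exact h2 𝒱 h3 h4
  have hd : ℵ₁ ≤ dd := by
    refine le_csInf ⟨_, Set.univ, rfl, fun g => ⟨g, trivial, Eventually.of_forall fun _ => le_rfl⟩⟩ ?_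
    rintro _ ⟨D, rfl, hD⟩
    rw [← succ_aleph0, Order.succ_le_iff]
    by_contra hh
    have hc := le_aleph0_iff_set_countable.1 (not_lt.1 hh)
    obtain ⟨f0, hf0, -⟩ := hD 0
    obtain ⟨e, rfl⟩ := hc.exists_eq_range ⟨f0, hf0⟩
    obtain ⟨_, ⟨k, rfl⟩, hk⟩ := hD fun n => (Finset.range (n + 1)).sup (fun j => e j n) + 1
    obtain ⟨n, h1, h2⟩ := (hk.and (eventually_ge_atTop k)).exists
    exact Nat.not_succ_le_self _ (h1.trans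
      (Finset.le_sup (f := fun j => e j n) (Finset.mem_range.2 (Nat.lt_succ_of_le h2))))
  have ab : ∀ (X : Type) [TopologicalSpace X], WSK X → WSS X := by
    intro X _ h 𝒰 h𝒰
    obtain ⟨Y, 𝒱, hY, h1, h2⟩ := h 𝒰 h𝒰
    refine ⟨𝒱, h1, fun ℱ hℱ ho => ?_⟩
    have : ∀ U : ℱ, ∃ y, y ∈ U.1 ∧ y ∈ Y := fun U =>
      hY.inter_open_nonempty _ (ho U U.2).1 (ho U U.2).2
    choose y hy hy' using this
    have := hℱ.to_subtype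
    refine (h2 (range y) (range_subset_iff.2 hy') (finite_range y)).mono fun n hn U hU => ?_
    exact ⟨y ⟨U, hU⟩, hy ⟨U, hU⟩, hn ⟨_, rfl⟩⟩
  have bc : ∀ (X : Type) [TopologicalSpace X], WSS X → WM X := by
    intro X _ h 𝒰 h𝒰
    obtain ⟨𝒱, h1, h2⟩ := h 𝒰 h𝒰
    refine ⟨𝒱, h1, dense_iff_inter_open.2 fun U hU hne => ?_⟩
    obtain ⟨n, hn⟩ := (h2 {U} (finite_singleton _) (by simpa using ⟨hU, hne⟩)).nonempty
    obtain ⟨x, h3, h4⟩ := hn U rfl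
    exact ⟨x, h3, mem_iUnion.2 ⟨n, h4⟩⟩
  have ha : dd = ℵ₁ → ∀ (X : Type) [TopologicalSpace X], WL X → #X < dd → WSK X := by
    intro h X _ _ hX 𝒰 h𝒰
    rw [h, ← succ_aleph0, Order.lt_succ_iff, mk_le_aleph0_iff] at hX
    obtain ⟨e, he⟩ := exists_injective_nat X
    have : ∀ n x, ∃ U ∈ 𝒰 n, x ∈ U := fun n x => ((h𝒰 n).2 ▸ mem_univ x : x ∈ ⋃₀ 𝒰 n)
    choose U hU hx using this
    refine ⟨Set.univ, fun n => U n '' (e ⁻¹' Iic n), dense_univ, fun n => ⟨?_,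
      ((finite_Iic n).preimage he.injOn).image _⟩, fun F _ hF => ?_⟩
    · rintro _ ⟨x, -, rfl⟩
      exact hU n x
    · obtain ⟨m, hm⟩ := (hF.image e).bddAbove
      refine (Ici_infinite m).mono fun n hn x hx' => ?_
      exact ⟨_, ⟨x, (hm ⟨x, hx', rfl⟩).trans hn, rfl⟩, hx n x⟩
  have hc : (∀ (X : Type) [TopologicalSpace X], WL X → #X < dd → WM X) → dd = ℵ₁ := by
    intro h
    by_contra hne
    obtain ⟨X, _, -, -, h1, h2, h3⟩ := ex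
    exact h3 (h X h2 (h1 ▸ lt_of_le_of_ne hd (Ne.symm hne)))
  exact ⟨ex, ⟨fun h => hc fun X _ a b => bc X (ab X (h X a b)), ha⟩,
    ⟨fun h => hc fun X _ a b => bc X (h X a b), fun h X _ a b => ab X (ha h X a b)⟩,
    hc, fun h X _ a b => bc X (ab X (ha h X a b))⟩

end Pool.Agent.Results.MP_ed8104_gt.Indep
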